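import Pool.Agent.H774R2.HR.Final

set_option autoImplicit false

open Set Complex

namespace Pool.Agent.Results.MP_37b94e_an.HyperplaneRank

/-- `HasRep p N`: the real-valued function `p` on `ℂᵐ` is `∑_{j < N} ε_j |f_j|²` with `ε_j = ±1`
and `f_j` holomorphic on `ℂᵐ`. -/
def HasRep {m : ℕ} (p : (Fin m → ℂ) → ℝ) (N : ℕ) : Prop :=
  ∃ (ε : Fin N → ℝ) (f : Fin N → (Fin m → ℂ) → ℂ),
    (∀ j, ε j = 1 ∨ ε j = -1) ∧ (∀ j, Differentiable ℂ (f j)) ∧
      ∀ z, p z = ∑ j, ε j * Complex.normSq (f j z)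

/-- The (Hermitian) rank of `p`: the least length of a representation, `⊤` if there is none. -/
noncomputable def rank {m : ℕ} (p : (Fin m → ℂ) → ℝ) : ℕ∞ :=
  sInf {N : ℕ∞ | ∃ l : ℕ, N = l ∧ HasRep p l}

/-- The restriction of `p` to the affine subspace `a + L(ℂᵐ)`, in the parametrisation
`x ↦ a + L x`. -/
def restrict {n m : ℕ} (p : (Fin n → ℂ) → ℝ) (a : Fin n → ℂ)
    (L : (Fin m → ℂ) →ₗ[ℂ] (Fin n → ℂ)) : (Fin m → ℂ) → ℝ := fun x => p (a + L x)

theorem HasRep.pad {m N M : ℕ} {p : (Fin m → ℂ) → ℝ} (h : HasRep p N) (hNM : N ≤ M) :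
    HasRep p M := by
  obtain ⟨l, rfl⟩ := Nat.exists_eq_add_of_le hNM
  obtain ⟨ε, f, h1, h2, h3⟩ := h
  refine ⟨Fin.append ε (fun _ => 1), Fin.append f (fun _ => fun _ => 0), ?_, ?_, ?_⟩
  · intro j
    refine Fin.addCases ?_ ?_ j
    · intro i; simpa using h1 i
    · intro i; simp
  · intro j
    refine Fin.addCases ?_ ?_ j
    · intro i; simpa using h2 i
    · intro i; simp
  · intro z
    rw [h3 z, Fin.sum_univ_add]
    simp

theorem rank_le_iff {m N : ℕ} {p : (Fin m → ℂ) → ℝ} : rank p ≤ N ↔ HasRep p N := by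
  constructor
  · intro h
    have hne : {N : ℕ∞ | ∃ l : ℕ, N = l ∧ HasRep p l}.Nonempty := by
      by_contra hcon
      rw [Set.not_nonempty_iff_eq_empty] at hcon
      rw [rank, hcon, sInf_empty] at h
      exact absurd (top_le_iff.1 h) (ENat.natCast_ne_top N)
    obtain ⟨l, hl, hrep⟩ := csInf_mem hne
    have h2 : (l : ℕ∞) ≤ N := by
      rw [← hl]; exact h
    exact hrep.pad (by exact_mod_cast h2)
  · intro h
    exact sInf_le ⟨N, rfl, h⟩

/-- in dimension `n ≥ 2` every vector lies in the range of an injective linear map from `ℂⁿ⁻¹` -/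
theorem exists_param {n : ℕ} (hn : 2 ≤ n) (b : Fin n → ℂ) :
    ∃ L : (Fin (n - 1) → ℂ) →ₗ[ℂ] (Fin n → ℂ), Function.Injective L ∧ ∃ e, L e = b := by
  have hlt : Submodule.span ℂ {b} < ⊤ := by
    rw [lt_top_iff_ne_top]
    intro h
    have h1 := finrank_span_le_card (R := ℂ) ({b} : Set (Fin n → ℂ))
    rw [h, finrank_top] at h1
    simp at h1
    omega
  obtain ⟨φ, hφ, hle⟩ := Submodule.exists_le_ker_of_lt_top _ hlt
  have hfin : Module.finrank ℂ (LinearMap.ker φ) = n - 1 := by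
    have h1 := φ.finrank_range_add_finrank_ker
    have h2 : LinearMap.range φ = ⊤ := LinearMap.range_eq_top.2 (LinearMap.surjective hφ)
    rw [h2, finrank_top] at h1
    simp at h1
    omega
  let E : (Fin (n - 1) → ℂ) ≃ₗ[ℂ] LinearMap.ker φ :=
    LinearEquiv.ofFinrankEq _ _ (by rw [hfin]; simp)
  refine ⟨(LinearMap.ker φ).subtype.comp E.toLinearMap, ?_, ?_⟩
  · exact (Submodule.injective_subtype _).comp E.injective
  · have hb : b ∈ LinearMap.ker φ := hle (Submodule.mem_span_singleton_self b)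
    exact ⟨E.symm ⟨b, hb⟩, by simp⟩

open Pool.Agent.H774R2.HR in
/-- **Hermitian rank from the ranks of hyperplane restrictions.**
Let `n ≥ 2`.  If `p` is real-analytic on `ℂⁿ` and its restriction to every complex affine
hyperplane `a + L(ℂⁿ⁻¹)` has rank `≤ k`, then `rank p ≤ 2 (kⁿ)ⁿ`. -/
theorem result :
    ∀ n : ℕ, 2 ≤ n → ∀ k : ℕ, ∀ p : (Fin n → ℂ) → ℝ, AnalyticOnNhd ℝ p univ →
      (∀ (a : Fin n → ℂ) (L : (Fin (n - 1) → ℂ) →ₗ[ℂ] (Fin n → ℂ)), Function.Injective L →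
        rank (restrict p a L) ≤ k) →
      rank p ≤ ((2 * (k ^ n) ^ n : ℕ) : ℕ∞) := by
  intro n hn k p hp h
  rw [rank_le_iff]
  apply exists_rep hp
  intro a b
  obtain ⟨L, hL, e, he⟩ := exists_param hn b
  obtain ⟨ε, g, -, hg, hsum⟩ := rank_le_iff.1 (h a L hL)
  refine ⟨ε, fun j t => g j (t • e), ?_, ?_⟩
  · intro j
    exact (hg j).comp (differentiable_id.smul_const e)
  · intro t
    rw [← hsum (t • e), restrict, map_smul, he]

end Pool.Agent.Results.MP_37b94e_an.HyperplaneRank
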